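import Pool.Agent.J6H40.FVS.Final

/-!
# Feedback vertex sets of planar oriented graphs: the inequality fails for every digirth `g ≥ 5`

The definitions `IsOriented`, `IsPlanar`, `HasDigirth`, `fvs`, `numArcs` are those of the starting
file `DigirthFive`, which gives one planar oriented graph (12 vertices, 19 arcs, digirth 5,
feedback vertex number 3) for which `fvs G ≤ (2 n + m) / (3 g)` fails.

Here the inequality is refuted for every `g ≥ 5`, for strongly connected graphs with arbitrarily
many vertices, and by a constant factor `1 + 1 / (9 g)` (so no additive correction helps).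

Construction. The graph with 12 vertices has a feedback arc set with three arcs. Take `t` copies,
arrange them in a ring (an arc from each copy to the next one, and one further vertex on the way
back from the last copy to the first), which gives a feedback arc set with `3 t + 1` arcs, and
subdivide all these arcs `g - 5` times. All directed cycles get longer by at least `g - 5`, the
feedback vertex number stays at least `3 t`, and `2 n + m ≤ (9 g - 1) t + 3 (g - 4)`.
-/

set_option autoImplicit false

namespace Pool.Agent.Results.MP_fa4488_co.AllDigirthsFromFive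

open Pool.Agent.Results.MP_fa4488_co.DigirthFive

/-- `adj` is strongly connected: there is a directed walk from every vertex to every vertex. -/
def StronglyConnected {V : Type*} (adj : V → V → Prop) : Prop :=
  ∀ u v, Relation.ReflTransGen adj u v

/-- For every `g ≥ 5` and every `N` there is a strongly connected planar oriented graph with at
least `N` vertices and digirth exactly `g` whose feedback vertex number is at least
`(1 + 1 / (9 g)) (2 n + m) / (3 g)`. In particular the inequality `fvs G ≤ (2 n + m) / (3 g)` of
the question fails for every `g ≥ 5`. -/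
theorem result (g : ℕ) (hg : 5 ≤ g) :
    (∀ N : ℕ, ∃ (n : ℕ) (adj : Fin n → Fin n → Prop), N ≤ n ∧
      IsOriented adj ∧ IsPlanar adj ∧ StronglyConnected adj ∧ HasDigirth adj g ∧
      (1 + 1 / (9 * (g : ℝ))) * ((2 * (n : ℝ) + (numArcs adj : ℝ)) / (3 * (g : ℝ))) ≤
        (fvs adj : ℝ)) ∧
    ¬ ∀ (n : ℕ) (adj : Fin n → Fin n → Prop),
      IsOriented adj → IsPlanar adj → HasDigirth adj g →
        (fvs adj : ℝ) ≤ (2 * (n : ℝ) + (numArcs adj : ℝ)) / (3 * (g : ℝ)) := by
  refine ⟨fun N => J6H40.FVS.main g hg N, ?_⟩
  intro H
  obtain ⟨n, adj, hn, h1, h2, -, h3, h4⟩ := J6H40.FVS.main g hg 1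
  have h5 := H n adj h1 h2 h3
  have hg0 : (0 : ℝ) < g := by
    have : 0 < g := by omega
    exact_mod_cast this
  have hn0 : (1 : ℝ) ≤ n := by exact_mod_cast hn
  have h6 : (0 : ℝ) < (2 * (n : ℝ) + (numArcs adj : ℝ)) / (3 * (g : ℝ)) := by
    have : (0 : ℝ) ≤ numArcs adj := Nat.cast_nonneg _
    positivity
  have h7 : (0 : ℝ) < 1 / (9 * (g : ℝ)) := by positivity
  nlinarith

end Pool.Agent.Results.MP_fa4488_co.AllDigirthsFromFive
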